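import Mathlib
import Pool.Agent.N718.DC.Stm2

/-!
Part CLS: rational points for almost all families in a residue class.
-/

set_option autoImplicit false

namespace Pool.Agent.N907.DC

open Finset Pool.Agent.N718.DC

theorem cast_fm {e : ℕ} (c : Fin (e + 2) → ℤ) (x y : ℤ) {R : Type} [CommRing R] :
    ((fm c x y : ℤ) : R) = fmv c (x : R) (y : R) := by
  unfold fmv fm
  push_cast
  rfl

theorem fm_dvd {e : ℕ} {M : ℕ} {c γ : Fin (e + 2) → ℤ} {x y a b : ℤ}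
    (hc : ∀ j, (M : ℤ) ∣ c j - γ j) (hx : (M : ℤ) ∣ x - a) (hy : (M : ℤ) ∣ y - b) :
    (M : ℤ) ∣ fm c x y - fm γ a b := by
  have h1 : ((fm γ a b : ℤ) : ZMod M) = ((fm c x y : ℤ) : ZMod M) := by
    have hx' : ((a : ℤ) : ZMod M) = x := (ZMod.intCast_eq_intCast_iff_dvd_sub a x M).2 hx
    have hy' : ((b : ℤ) : ZMod M) = y := (ZMod.intCast_eq_intCast_iff_dvd_sub b y M).2 hy
    have hc' : ∀ j, ((γ j : ℤ) : ZMod M) = c j := fun j =>
      (ZMod.intCast_eq_intCast_iff_dvd_sub (γ j) (c j) M).2 (hc j)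
    unfold fm
    push_cast
    rw [hx', hy']
    exact Finset.sum_congr rfl fun j _ => by rw [hc' j]
  exact (ZMod.intCast_eq_intCast_iff_dvd_sub _ _ M).1 h1

theorem gcd_part {M : ℕ} (hM : 1 ≤ M) {f : ℤ}
    (h : ∀ p : ℕ, p.Prime → p ∣ M → 3 ≤ padicValNat p M ∧
      ¬ ((p : ℤ) ^ (padicValNat p M - 3 + 1) ∣ f)) :
    (Int.gcd f M ∣ M ∧ ∀ p : ℕ, p.Prime → p ∣ M → p ^ 3 ∣ M / Int.gcd f M) ∧
      ∃ n : ℤ, f = Int.gcd f M * n ∧ IsCoprime n (M : ℤ) := by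
  have hg : Int.gcd f M ∣ M := by
    have := Int.gcd_dvd_right f (M : ℤ)
    exact_mod_cast this
  have hgf : ((Int.gcd f M : ℕ) : ℤ) ∣ f := Int.gcd_dvd_left f (M : ℤ)
  have hM0 : M ≠ 0 := by omega
  have hg0 : Int.gcd f M ≠ 0 := fun h0 => hM0 (by
    rw [h0, zero_dvd_iff] at hg
    exact hg)
  have key : ∀ p : ℕ, p.Prime → p ∣ M → padicValNat p (Int.gcd f M) + 3 ≤ padicValNat p M := by
    intro p hp hpM
    obtain ⟨h3, h4⟩ := h p hp hpM
    by_contra hcon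
    apply h4
    have h5 : padicValNat p M - 3 + 1 ≤ padicValNat p (Int.gcd f M) := by omega
    have h6 : p ^ (padicValNat p M - 3 + 1) ∣ Int.gcd f M :=
      (pow_dvd_pow p h5).trans pow_padicValNat_dvd
    have h7 : ((p ^ (padicValNat p M - 3 + 1) : ℕ) : ℤ) ∣ ((Int.gcd f M : ℕ) : ℤ) := by
      exact_mod_cast h6
    have h8 := h7.trans hgf
    push_cast at h8
    exact h8
  refine ⟨⟨hg, ?_⟩, ?_⟩
  · intro p hp hpM
    have : Fact p.Prime := ⟨hp⟩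
    have h1 := key p hp hpM
    have h2 : M / Int.gcd f M ≠ 0 := Nat.div_ne_zero_iff_of_dvd hg |>.2 ⟨hM0, hg0⟩
    rw [padicValNat_dvd_iff_le h2, padicValNat.div_of_dvd hg]
    omega
  · obtain ⟨n, hn⟩ := hgf
    refine ⟨n, hn, ?_⟩
    rw [Int.isCoprime_iff_gcd_eq_one]
    by_contra hne
    obtain ⟨p, hp, hpd⟩ := Nat.exists_prime_and_dvd hne
    have : Fact p.Prime := ⟨hp⟩
    have hpn : (p : ℤ) ∣ n := (Int.natCast_dvd_natCast.2 hpd).trans (Int.gcd_dvd_left _ _)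
    have hpM : (p : ℤ) ∣ (M : ℤ) := (Int.natCast_dvd_natCast.2 hpd).trans (Int.gcd_dvd_right _ _)
    have hpM' : p ∣ M := Int.natCast_dvd_natCast.1 hpM
    have h1 := key p hp hpM'
    have h2 : p ^ (padicValNat p (Int.gcd f M) + 1) ∣ Int.gcd f M := by
      have h3 : ((p ^ (padicValNat p (Int.gcd f M) + 1) : ℕ) : ℤ) ∣ f := by
        have h4 : ((p ^ padicValNat p (Int.gcd f M) : ℕ) : ℤ) ∣ ((Int.gcd f M : ℕ) : ℤ) :=
          Int.natCast_dvd_natCast.2 pow_padicValNat_dvd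
        have h5 := mul_dvd_mul h4 hpn
        rw [← hn] at h5
        rw [pow_succ]
        push_cast at h5 ⊢
        exact h5
      have h6 : ((p ^ (padicValNat p (Int.gcd f M) + 1) : ℕ) : ℤ) ∣ (M : ℤ) := by
        apply Int.natCast_dvd_natCast.2
        exact (pow_dvd_pow p (by omega)).trans (pow_padicValNat_dvd (p := p) (n := M))
      exact Int.natCast_dvd_natCast.1 (Int.dvd_coe_gcd h3 h6)
    exact pow_succ_padicValNat_not_dvd hg0 h2

theorem cls_ (h1 : S_AMT3) (h2 : S_ARI) : S_CLS := by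
  classical
  intro r e
  obtain ⟨C, hC, hmain⟩ := h1 r e
  refine ⟨C, hC, ?_⟩
  intro W M hW hM h2M hWM hMW a₀ a₁ α β hαβ γ s hs hv hps
  have hpart := fun k => gcd_part (M := M) hM (f := fm (γ k) a₀ a₁)
    (fun p hp hpM => ⟨(hv p hp hpM).1, (hv p hp hpM).2 k⟩)
  have hARI : ∀ i, ∃ ε : Fin 3 → Fin 3 → ℤ, (∀ l l', ε l l' = 1 ∨ ε l l' = -1) ∧
    ∀ F : Fin 3 → ℤ, (∀ l, (M : ℤ) ∣ F l - fm (γ (i, l)) a₀ a₁) → ∀ P : Fin 3 → ℕ,
      (∀ l, (P l).Prime ∧ s (i, l) * F l = Int.gcd (fm (γ (i, l)) a₀ a₁) M * P l) →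
      (∀ l l', l < l' → jacobiSym (P l) (P l') = ε l l') →
      Sol ((F 0 : ℤ) : ℚ) ((F 1 : ℤ) : ℚ) ((F 2 : ℤ) : ℚ) := by
    intro i
    refine h2 M (fun l => fm (γ (i, l)) a₀ a₁) (fun l => Int.gcd (fm (γ (i, l)) a₀ a₁) M)
      (fun l => s (i, l)) hM h2M (fun l => (hpart (i, l)).1) (fun l => (hpart (i, l)).2)
      (fun l => hs.1 (i, l)) (hs.2 i).1 (hs.2 i).2 ?_
    intro p _ hpM
    have h3 := (hps p hpM).2 i
    simp only [cast_fm]
    exact h3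
  choose ε hε hεF using hARI
  obtain ⟨H₀, hH₀⟩ := hmain W M hW hM h2M hWM hMW a₀ a₁ α β hαβ γ
    (fun k => Int.gcd (fm (γ k) a₀ a₁) M) s ε hs.1 hε
    (fun k => ⟨(hpart k).1.1, fun p hp hpM =>
      (dvd_pow_self p three_ne_zero).trans ((hpart k).1.2 p hp hpM)⟩)
    (fun k => (hpart k).2)
  refine ⟨H₀, fun H hH => le_trans ?_ (hH₀ H hH)⟩
  have hsub := Finset.monotone_filter_right (BXI e H)
    (p := fun c => (∀ k j, (M : ℤ) ∣ c k j - γ k j) ∧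
      (∀ k, ∀ z : ℝ, α < z → z < β → 0 < (s k : ℝ) * fmv (c k) 1 z) ∧
      ¬ ∃ x y : ℤ, 0 < x ∧ (M : ℤ) ∣ x - a₀ ∧ (M : ℤ) ∣ y - a₁ ∧ α * x < y ∧ (y : ℝ) < β * x ∧
        PS c (x : ℚ) (y : ℚ))
    (q := fun c => (∀ k j, (M : ℤ) ∣ c k j - γ k j) ∧
      (∀ k, ∀ z : ℝ, α < z → z < β → 0 < (s k : ℝ) * fmv (c k) 1 z) ∧
      ¬ ∃ x y : ℤ, 0 < x ∧ (M : ℤ) ∣ x - a₀ ∧ (M : ℤ) ∣ y - a₁ ∧ α * x < y ∧ (y : ℝ) < β * x ∧
        ∃ P : Fin r × Fin 3 → ℕ, (∀ k, (P k).Prime ∧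
          s k * fm (c k) x y = (Int.gcd (fm (γ k) a₀ a₁) M : ℕ) * P k) ∧
          ∀ i l l', l < l' → jacobiSym (P (i, l)) (P (i, l')) = ε i l l') (by
      rintro c - ⟨hc1, hc2, hc3⟩
      refine ⟨hc1, hc2, ?_⟩
      rintro ⟨x, y, hx, hxa, hya, hαx, hβx, P, hP, hPε⟩
      apply hc3
      refine ⟨x, y, hx, hxa, hya, hαx, hβx, ?_, ?_⟩
      · intro k
        rw [← cast_fm]
        intro h0
        have h0' : fm (c k) x y = 0 := by exact_mod_cast h0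
        have h4 := (hP k).2
        rw [h0', mul_zero] at h4
        have h5 : ((Int.gcd (fm (γ k) a₀ a₁) M : ℕ) : ℤ) ≠ 0 := by
          intro h6
          have h7 := (hpart k).1.1
          have h8 : Int.gcd (fm (γ k) a₀ a₁) M = 0 := by exact_mod_cast h6
          rw [h8, zero_dvd_iff] at h7
          omega
        have h6 : ((P k : ℕ) : ℤ) ≠ 0 := by exact_mod_cast (hP k).1.ne_zero
        exact (mul_ne_zero h5 h6) h4.symm
      · intro i
        have h4 := hεF i (fun l => fm (c (i, l)) x y)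
          (fun l => fm_dvd (hc1 (i, l)) hxa hya) (fun l => P (i, l)) (fun l => hP (i, l))
          (fun l l' hl => hPε i l l' hl)
        simp only [cast_fm] at h4
        exact h4)
  exact_mod_cast Finset.card_le_card hsub

end Pool.Agent.N907.DC
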